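import Pool.Agent.MP_c52a38_ag.Mg.Int_Glob
import Pool.Agent.MP_c52a38_ag.Mg.Int_Theta

open Pool.Agent.MP_c52a38_ag

/-- The negated form of Q1 holds for an integral class of arbitrarily large volume on an abelian
threefold: there is ℂ^3 / Λ with an ample class H, integral on Λ, with (B^3) > 3^3 and (B^3) > N,
which has effective ℚ-divisors in its class, and for every such divisor D either Z(D) is not an
abelian subvariety, or it is a positive-dimensional one while (X, B) does not split. -/
theorem Pool.Agent.Results.MP_c52a38_ag.Integral.result :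
    ∀ N : ℝ, ∃ (b : Module.Basis (Fin (2 * 3)) ℝ (Fin 3 → ℂ)) (H : Matrix (Fin 3) (Fin 3) ℂ),
      IsAmpleQClass b H ∧ (∀ l ∈ lattice b, ∀ l' ∈ lattice b, ∃ n : ℤ, (herm H l l').im = n) ∧
      (3 : ℝ) ^ 3 < selfInter b H ∧ N < selfInter b H ∧
      (∃ θ m, IsEffectiveQDivisorOfClass b H θ m) ∧
      ∀ θ m, IsEffectiveQDivisorOfClass b H θ m →
        (¬ ∃ W, IsSubtorus b W ∧ cosupport θ m = subtorusPreimage b W) ∨
        ((∃ W, IsSubtorus b W ∧ cosupport θ m = subtorusPreimage b W) ∧
          (∀ W, IsSubtorus b W → cosupport θ m = subtorusPreimage b W → W ≠ ⊥) ∧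
          ¬ Splits b H) := by
  intro N
  obtain ⟨j, hj⟩ := exists_nat_ge (max N 1)
  have h1 := (le_max_left _ _).trans hj
  have h2 := (le_max_right _ _).trans hj
  refine ⟨Int.bas3, Int.H3 j, Int.ample3 j, Int.integral3 j, by rw [Int.vol3]; linarith,
    by rw [Int.vol3]; linarith, Int.exists_divisor3 j, fun θ m h => ?_⟩
  by_cases hW : ∃ W, IsSubtorus Int.bas3 W ∧ cosupport θ m = subtorusPreimage Int.bas3 W
  · right
    refine ⟨hW, ?_, Int.not_splits3 j⟩
    rintro W - h3 rfl
    obtain ⟨X, g, hX⟩ := Int.wt_of_theta h h3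
    exact Int.no_wt hX (by linarith)
  · exact Or.inl hW
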